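import Mathlib
import Pool.Agent.H654.Bl.Fin

set_option autoImplicit false

namespace Pool.Agent.Results.MP_6db618_an.MaximumOnRay

open Pool.Agent.Helper246.Blum Filter H654.Bl

/-- Let `p` be a complex polynomial such that for all radii `r` of some nonempty open interval
`(r₁, r₂)`, `r₁ ≥ 0`, the maximum of `|p|` on the circle `|z| = r` is attained on one fixed ray (for
instance a polynomial with nonnegative coefficients).  If `f` is entire and `M(r,f) = M(r,p)` for all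
`r > 0`, then `f` and `p` are equivalent; in fact `f(z) = ε p(ηz)`, `|ε| = |η| = 1`. -/
theorem result :
    (∀ (p : Polynomial ℂ) (f : ℂ → ℂ) (ω : ℂ) (r₁ r₂ : ℝ), Differentiable ℂ f → ‖ω‖ = 1 →
      0 ≤ r₁ → r₁ < r₂ →
      (∀ r : ℝ, r₁ < r → r < r₂ →
        sSup ((fun z => ‖p.eval z‖) '' Metric.sphere (0:ℂ) r) = ‖p.eval (r * ω)‖) →
      (∀ r : ℝ, 0 < r →
        sSup ((fun z => ‖p.eval z‖) '' Metric.sphere (0:ℂ) r) =
          sSup ((fun z => ‖f z‖) '' Metric.sphere (0:ℂ) r)) →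
      ∃ ε η : ℂ, ‖ε‖ = 1 ∧ ‖η‖ = 1 ∧ ∀ z : ℂ, f z = ε * p.eval (η * z)) ∧
    (∀ (p : Polynomial ℂ) (f : ℂ → ℂ), Differentiable ℂ f →
      (∀ i, ∃ a : ℝ, 0 ≤ a ∧ p.coeff i = a) →
      (∀ r : ℝ, 0 < r →
        sSup ((fun z => ‖p.eval z‖) '' Metric.sphere (0:ℂ) r) =
          sSup ((fun z => ‖f z‖) '' Metric.sphere (0:ℂ) r)) →
      ∃ ε η : ℂ, ‖ε‖ = 1 ∧ ‖η‖ = 1 ∧ ∀ z : ℂ, f z = ε * p.eval (η * z)) := by
  have key : ∀ (p : Polynomial ℂ) (f : ℂ → ℂ) (ω : ℂ) (r₁ r₂ : ℝ), Differentiable ℂ f → ‖ω‖ = 1 →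
      0 ≤ r₁ → r₁ < r₂ →
      (∀ r : ℝ, r₁ < r → r < r₂ →
        sSup ((fun z => ‖p.eval z‖) '' Metric.sphere (0:ℂ) r) = ‖p.eval (r * ω)‖) →
      (∀ r : ℝ, 0 < r →
        sSup ((fun z => ‖p.eval z‖) '' Metric.sphere (0:ℂ) r) =
          sSup ((fun z => ‖f z‖) '' Metric.sphere (0:ℂ) r)) →
      ∃ ε η : ℂ, ‖ε‖ = 1 ∧ ‖η‖ = 1 ∧ ∀ z : ℂ, f z = ε * p.eval (η * z) := by
    intro p f ω r₁ r₂ hf hω h0 h12 hray hM
    obtain ⟨q, hq⟩ := poly_of_growth f hf _ p.natDegree (by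
      filter_upwards [eventually_ge_atTop (1:ℝ)] with r hr
      have h1 : MM f r = MM (fun z => p.eval z) r := (hM r (by linarith)).symm
      rw [h1]
      exact MM_poly_le p r hr)
    have hfq : f = fun z => q.eval z := funext hq
    have hM2 : ∀ r : ℝ, 0 < r → MM (fun z => p.eval z) r = MM (fun z => q.eval z) r := by
      intro r hr
      have h1 := hM r hr
      rw [hfq] at h1
      exact h1
    by_cases hp : p = 0
    · have hq0 : q = 0 := by
        apply zero_of_MM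
        intro r hr
        rw [← hM2 r hr, hp]
        obtain ⟨_, x, _, hx⟩ := MM_spec (fun z => (0:Polynomial ℂ).eval z)
          (0:Polynomial ℂ).continuous r hr.le
        rw [← hx]; simp
      exact ⟨1, 1, norm_one, norm_one, fun z => by rw [hq z, hq0, hp]; simp⟩
    · obtain ⟨ε, η, hε, hη, h⟩ := main1 p q hp ω hω hM2 r₁ r₂ h0 h12 hray
      exact ⟨ε, η, hε, hη, fun z => by rw [hq z]; exact h z⟩
  refine ⟨key, ?_⟩
  intro p f hf hp hM
  exact key p f 1 0 1 hf norm_one le_rfl one_pos (fun r hr _ => nonneg_ray p hp r hr) hM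

end Pool.Agent.Results.MP_6db618_an.MaximumOnRay
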